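import Pool.Agent.U789.Zp.Final

set_option autoImplicit false

/-!
# Maximum order complexity of Zeckendorf digit parity along the squares

For `P = X ^ 2` the `N`-th maximum order complexity is at least `N ^ (1/3) / 25`, so it is
not `O(N ^ (1/4))`; this disproves the conjectured order `N ^ (1/(2d))`.
-/

namespace Pool.Agent.Results.MP_d0186b_co.CubeRootLower

open Nat

/-- The Zeckendorf parity sequence: `true` at `n` iff the Zeckendorf representation of `n`
has an odd number of terms (`Nat.zeckendorf n` is the list of the indices of its terms). -/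
def zeckParity (n : ℕ) : Bool := decide ((Nat.zeckendorf n).length % 2 = 1)

/-- The parity of the Zeckendorf sum of digits along the values of a polynomial. -/
noncomputable def along (P : Polynomial ℤ) (n : ℕ) : Bool :=
  zeckParity (P.eval (n : ℤ)).toNat

open Classical in
/-- The `N`-th maximum order complexity (`N ≥ 2`) of a binary sequence `s`. If the terms
`s 0, …, s (N - 2)` are not all equal, it is the least positive `κ` for which there is a
feedback function `f` of `κ` variables with `s (i + κ) = f (s i, …, s (i + κ - 1))` for all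
`i` with `i + κ ≤ N - 1`; if they are all equal, it is `0` when `s (N - 1)` is equal to them,
and `N - 1` otherwise. -/
noncomputable def maxOrderComplexity (s : ℕ → Bool) (N : ℕ) : ℕ :=
  if ∀ i, i + 1 < N → s i = s 0 then (if s (N - 1) = s 0 then 0 else N - 1)
  else sInf {κ : ℕ | 0 < κ ∧ ∃ f : (Fin κ → Bool) → Bool, ∀ i : ℕ, i + κ < N →
    s (i + κ) = f (fun j : Fin κ => s (i + (j : ℕ)))}

theorem along_sq (n : ℕ) : along (Polynomial.X ^ 2) n = U789.Zp.sq n := by
  unfold along U789.Zp.sq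
  have h : ((Polynomial.X ^ 2 : Polynomial ℤ).eval (n : ℤ)).toNat = n ^ 2 := by
    rw [Polynomial.eval_pow, Polynomial.eval_X]
    have : ((n : ℤ)) ^ 2 = ((n ^ 2 : ℕ) : ℤ) := by push_cast; ring
    rw [this, Int.toNat_natCast]
  rw [h]
  rfl

theorem lower_nat {N : ℕ} (hN : 50000 ≤ N) :
    N ≤ (25 * maxOrderComplexity (along (Polynomial.X ^ 2)) N) ^ 3 := by
  have hs : along (Polynomial.X ^ 2) = U789.Zp.sq := funext along_sq
  rw [hs]
  have h0 : U789.Zp.sq 0 = false := U789.Zk.S_zero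
  have h1 : U789.Zp.sq 1 = true := by
    unfold U789.Zp.sq
    rw [one_pow]
    exact U789.Zk.S_one
  have hne : ¬ ∀ i, i + 1 < N → U789.Zp.sq i = U789.Zp.sq 0 := by
    intro h
    have := h 1 (by omega)
    rw [h0, h1] at this
    exact absurd this (by decide)
  unfold maxOrderComplexity
  rw [if_neg hne]
  have hmem : (N : ℕ) ∈ {κ : ℕ | 0 < κ ∧ ∃ f : (Fin κ → Bool) → Bool, ∀ i : ℕ, i + κ < N →
    U789.Zp.sq (i + κ) = f (fun j : Fin κ => U789.Zp.sq (i + (j : ℕ)))} :=
    ⟨by omega, fun _ => false, fun i hi => by omega⟩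
  obtain ⟨-, f, hf⟩ := Nat.sInf_mem (Set.nonempty_of_mem hmem)
  refine U789.Zp.lower ?_ f hf
  have e : U789.Zp.Lc 20 = 15127 := by decide
  rw [e]
  omega

theorem lower_real {N : ℕ} (hN : 50000 ≤ N) :
    (N : ℝ) ^ ((1 : ℝ) / 3) ≤ 25 * (maxOrderComplexity (along (Polynomial.X ^ 2)) N : ℝ) := by
  have h := lower_nat hN
  have h' : (N : ℝ) ≤ (25 * (maxOrderComplexity (along (Polynomial.X ^ 2)) N : ℝ)) ^ 3 := by
    exact_mod_cast h
  have hpos : (0 : ℝ) ≤ 25 * (maxOrderComplexity (along (Polynomial.X ^ 2)) N : ℝ) := by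
    positivity
  calc (N : ℝ) ^ ((1 : ℝ) / 3)
      ≤ ((25 * (maxOrderComplexity (along (Polynomial.X ^ 2)) N : ℝ)) ^ 3) ^ ((1 : ℝ) / 3) :=
        Real.rpow_le_rpow (by positivity) h' (by norm_num)
    _ = 25 * (maxOrderComplexity (along (Polynomial.X ^ 2)) N : ℝ) := by
        rw [← Real.rpow_natCast, ← Real.rpow_mul hpos]
        norm_num

/-- For `P = X ^ 2` and all `N ≥ 50000` the complexity is at least `N ^ (1/3) / 25`; hence
`M(S_{Z,P}, N) / N ^ (1/4)` tends to infinity, and the assertion that for every monic `P` of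
degree `d ≥ 2` with `P(ℕ) ⊆ ℕ` one has `c N ^ (1/(2d)) ≤ M(S_{Z,P}, N) ≤ C N ^ (1/(2d))` for
all large `N`, with positive constants, is false. -/
theorem result :
    (∀ N : ℕ, 50000 ≤ N →
      (N : ℝ) ^ ((1 : ℝ) / 3) / 25 ≤ (maxOrderComplexity (along (Polynomial.X ^ 2)) N : ℝ)) ∧
    Filter.Tendsto (fun N : ℕ =>
      (maxOrderComplexity (along (Polynomial.X ^ 2)) N : ℝ) / (N : ℝ) ^ ((1 : ℝ) / 4))
      Filter.atTop Filter.atTop ∧
    ¬ (∀ P : Polynomial ℤ, P.Monic → 2 ≤ P.natDegree → (∀ n : ℕ, 0 ≤ P.eval (n : ℤ)) →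
      ∃ c C : ℝ, 0 < c ∧ 0 < C ∧ ∀ᶠ N : ℕ in Filter.atTop,
        c * (N : ℝ) ^ ((1 : ℝ) / (2 * P.natDegree)) ≤ (maxOrderComplexity (along P) N : ℝ) ∧
        (maxOrderComplexity (along P) N : ℝ) ≤
          C * (N : ℝ) ^ ((1 : ℝ) / (2 * P.natDegree))) := by
  have h1 : ∀ N : ℕ, 50000 ≤ N →
      (N : ℝ) ^ ((1 : ℝ) / 3) / 25 ≤ (maxOrderComplexity (along (Polynomial.X ^ 2)) N : ℝ) := by
    intro N hN
    have := lower_real hN
    linarith
  have h2 : Filter.Tendsto (fun N : ℕ =>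
      (maxOrderComplexity (along (Polynomial.X ^ 2)) N : ℝ) / (N : ℝ) ^ ((1 : ℝ) / 4))
      Filter.atTop Filter.atTop := by
    have t1 : Filter.Tendsto (fun N : ℕ => (N : ℝ) ^ ((1 : ℝ) / 12) / 25)
        Filter.atTop Filter.atTop :=
      ((tendsto_rpow_atTop (by norm_num)).comp tendsto_natCast_atTop_atTop).atTop_div_const
        (by norm_num)
    refine Filter.tendsto_atTop_mono' _ ?_ t1
    filter_upwards [Filter.eventually_ge_atTop 50000] with N hN
    have hNpos : (0 : ℝ) < (N : ℝ) := by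
      have : 0 < N := by omega
      exact_mod_cast this
    have h4 : (0 : ℝ) < (N : ℝ) ^ ((1 : ℝ) / 4) := Real.rpow_pos_of_pos hNpos _
    rw [le_div_iff₀ h4, div_mul_eq_mul_div, ← Real.rpow_add hNpos]
    have e : (1 : ℝ) / 12 + 1 / 4 = 1 / 3 := by norm_num
    rw [e]
    exact h1 N hN
  refine ⟨h1, h2, ?_⟩
  intro hall
  obtain ⟨c, C, -, hC, hev⟩ := hall (Polynomial.X ^ 2) (Polynomial.monic_X_pow 2)
    (by rw [Polynomial.natDegree_X_pow]) (fun n => by
      rw [Polynomial.eval_pow, Polynomial.eval_X]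
      positivity)
  rw [Polynomial.natDegree_X_pow] at hev
  have h3 := h2.eventually (Filter.eventually_gt_atTop C)
  obtain ⟨N, ⟨⟨-, hN1⟩, hN2⟩, hN3⟩ := ((hev.and h3).and (Filter.eventually_ge_atTop 1)).exists
  have hNpos : (0 : ℝ) < (N : ℝ) := by exact_mod_cast hN3
  have h4 : (0 : ℝ) < (N : ℝ) ^ ((1 : ℝ) / 4) := Real.rpow_pos_of_pos hNpos _
  have e : (1 : ℝ) / (2 * ((2 : ℕ) : ℝ)) = 1 / 4 := by norm_num
  rw [e] at hN1
  rw [lt_div_iff₀ h4] at hN2
  linarith

end Pool.Agent.Results.MP_d0186b_co.CubeRootLower
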